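import Pool.Agent.Helper46.NU.Goals1

open MeasureTheory Filter Topology Set ProbabilityTheory
open scoped ENNReal

noncomputable section

namespace NU.PkMRT

/-- membership in `A` depends only on the bits in `S` -/
def dep (S : Finset ℕ) (A : Set (ℕ → Bool)) : Prop :=
  ∀ x x' : ℕ → Bool, (∀ m ∈ S, x m = x' m) → (x ∈ A ↔ x' ∈ A)

theorem dep_preimage {S : Finset ℕ} {A : Set (ℕ → Bool)} (h : dep S A) :
    (fun (a : ℕ → Bool) (i : S) => a i) ⁻¹' ((fun (a : ℕ → Bool) (i : S) => a i) '' A) = A := by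
  ext x
  constructor
  · rintro ⟨y, hy, hxy⟩
    exact (h y x (fun m hm => congrFun hxy ⟨m, hm⟩)).1 hy
  · intro hx
    exact ⟨x, hx, rfl⟩

theorem dep_meas {S : Finset ℕ} {A : Set (ℕ → Bool)} (h : dep S A) : MeasurableSet A := by
  rw [← dep_preimage h]
  apply MeasurableSet.preimage
  · exact (Set.toFinite _).measurableSet
  · fun_prop

theorem dep_compl {S : Finset ℕ} {A : Set (ℕ → Bool)} (h : dep S A) : dep S Aᶜ := by
  intro x x' hx
  simp only [mem_compl_iff]
  exact not_congr (h x x' hx)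

theorem indep {S T : Finset ℕ} (hST : Disjoint S T) {A B : Set (ℕ → Bool)} (hA : dep S A)
    (hB : dep T B) : coin (A ∩ B) = coin A * coin B := by
  have h := (iIndepFun_infinitePi (P := fun _ : ℕ => bern) (X := fun _ x => x)
    (fun _ => measurable_id)).indepFun_finset S T hST (fun i => measurable_pi_apply i)
  have h2 := h.measure_inter_preimage_eq_mul
    ((fun (a : ℕ → Bool) (i : S) => a i) '' A) ((fun (a : ℕ → Bool) (i : T) => a i) '' B)
    (Set.toFinite _).measurableSet (Set.toFinite _).measurableSet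
  rw [dep_preimage hA, dep_preimage hB] at h2
  exact h2

theorem blk_disj {m n : ℕ} (h : m ≠ n) : Disjoint (blk m) (blk n) := by
  rw [Finset.disjoint_left]
  intro k hk hk'
  simp only [blk, Finset.mem_Ico] at hk hk'
  rcases Nat.lt_or_gt_of_ne h with h | h
  · have : 2 ^ (m + 1) ≤ 2 ^ n := Nat.pow_le_pow_right (by norm_num) h
    omega
  · have : 2 ^ (n + 1) ≤ 2 ^ m := Nat.pow_le_pow_right (by norm_num) h
    omega

/-- the bad patterns -/
def Bn (T : Set (ℕ → Bool)) (n : ℕ) : Set (ℕ → Bool) :=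
  {x | coin {y ∈ T | ∀ m ∈ blk n, y m = x m} = 0}

theorem dep_Bn (T : Set (ℕ → Bool)) (n : ℕ) : dep (blk n) (Bn T n) := by
  intro x x' h
  have : {y ∈ T | ∀ m ∈ blk n, y m = x m} = {y ∈ T | ∀ m ∈ blk n, y m = x' m} := by
    ext y
    simp only [mem_ofPred_eq]
    constructor
    · rintro ⟨h1, h2⟩
      exact ⟨h1, fun m hm => (h2 m hm).trans (h m hm)⟩
    · rintro ⟨h1, h2⟩
      exact ⟨h1, fun m hm => (h2 m hm).trans (h m hm).symm⟩
  simp only [Bn, mem_ofPred_eq, this]

theorem null_T (T : Set (ℕ → Bool)) (n : ℕ) : coin (T ∩ Bn T n) = 0 := by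
  classical
  have hsub : T ∩ Bn T n ⊆ ⋃ p : (blk n) → Bool,
      (if coin {y ∈ T | ∀ m : blk n, y m = p m} = 0 then {y ∈ T | ∀ m : blk n, y m = p m}
        else ∅) := by
    rintro x ⟨hx, hb⟩
    rw [mem_iUnion]
    refine ⟨fun m => x m, ?_⟩
    have : coin {y ∈ T | ∀ m : blk n, y m = x m} = 0 := by
      have h2 : {y ∈ T | ∀ m : blk n, y m = x m} = {y ∈ T | ∀ m ∈ blk n, y m = x m} := by
        ext y
        simp only [mem_ofPred_eq, Subtype.forall]
      rw [h2]
      exact hb
    rw [if_pos this]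
    exact ⟨hx, fun m => rfl⟩
  refine measure_mono_null hsub ?_
  rw [measure_iUnion_null_iff]
  intro p
  split_ifs with h
  · exact h
  · exact measure_empty

theorem dep_inter (T : Set (ℕ → Bool)) (J : Finset ℕ) :
    dep (J.biUnion blk) (⋂ n ∈ J, (Bn T n)ᶜ) := by
  intro x x' h
  simp only [mem_iInter]
  refine forall_congr' fun n => forall_congr' fun hn => ?_
  exact dep_compl (dep_Bn T n) x x' (fun m hm => h m (Finset.mem_biUnion.2 ⟨n, hn, hm⟩))

theorem prod_inter (T : Set (ℕ → Bool)) (J : Finset ℕ) :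
    coin (⋂ n ∈ J, (Bn T n)ᶜ) = ∏ n ∈ J, coin (Bn T n)ᶜ := by
  classical
  induction J using Finset.induction_on with
  | empty => simp
  | insert m J hm ih =>
    rw [Finset.set_biInter_insert, Finset.prod_insert hm, ← ih]
    apply indep (S := blk m) (T := J.biUnion blk) _ (dep_compl (dep_Bn T m)) (dep_inter T J)
    rw [Finset.disjoint_biUnion_right]
    intro n hn
    exact blk_disj (fun h => hm (h ▸ hn))

theorem mrt : G_MRT := by
  intro T hT hT0
  rw [ENNReal.tendsto_nhds_zero]
  intro ε hε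
  change ∀ᶠ n in atTop, coin (Bn T n) ≤ ε
  by_contra hcon
  rw [not_eventually] at hcon
  have hinf := Nat.frequently_atTop_iff_infinite.1 hcon
  have hbd : ∀ k : ℕ, coin T ≤ (1 - ε) ^ k := by
    intro k
    obtain ⟨J, hJ, hJk⟩ := hinf.exists_subset_card_eq k
    have h1 : coin T ≤ coin (⋂ n ∈ J, (Bn T n)ᶜ) := by
      have hsub : T ⊆ (⋂ n ∈ J, (Bn T n)ᶜ) ∪ ⋃ n ∈ J, (T ∩ Bn T n) := by
        intro x hx
        by_cases h : x ∈ ⋂ n ∈ J, (Bn T n)ᶜ
        · exact Or.inl h
        · right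
          simp only [mem_iInter, not_forall, mem_compl_iff, not_not] at h
          obtain ⟨n, hn, hxn⟩ := h
          simp only [mem_iUnion]
          exact ⟨n, hn, hx, hxn⟩
      refine (measure_mono hsub).trans ?_
      refine (measure_union_le _ _).trans ?_
      have h0 : coin (⋃ n ∈ J, (T ∩ Bn T n)) = 0 := by
        refine (measure_biUnion_null_iff (I := (J : Set ℕ)) J.countable_toSet).2 ?_
        intro n _
        exact null_T T n
      rw [h0, add_zero]
    refine h1.trans ?_
    rw [prod_inter, ← hJk]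
    calc ∏ n ∈ J, coin (Bn T n)ᶜ ≤ ∏ n ∈ J, (1 - ε) := by
          apply Finset.prod_le_prod'
          intro n hn
          rw [prob_compl_eq_one_sub (dep_meas (dep_Bn T n))]
          have : ε < coin (Bn T n) := not_le.1 (hJ hn)
          exact tsub_le_tsub_left this.le 1
      _ = (1 - ε) ^ J.card := by rw [Finset.prod_const]
  have hlt : (1 - ε : ℝ≥0∞) < 1 := ENNReal.sub_lt_self ENNReal.one_ne_top one_ne_zero hε.ne'
  have hlim := ENNReal.tendsto_pow_atTop_nhds_zero_of_lt_one hlt
  have := ge_of_tendsto' hlim hbd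
  exact hT0 (le_antisymm this zero_le)

end NU.PkMRT
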